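import Pool.Agent.N343.TC.Stm

/-! Project TC (helper343), part FUN: from the Wiener algebra to functions on the circle (helper514). -/

set_option autoImplicit false

open MeasureTheory Set Filter Topology Metric Complex
open scoped ContDiff RealInnerProductSpace ComplexConjugate

namespace Pool.Agent.N514.TC

open Pool.Agent.N343.TC

section
variable {B : Type} [NormedCommRing B] [NormedAlgebra ℂ B]

lemma ev_S (A : WA B) {x : ℂ} (hx : ‖x‖ = 1) : A.ev x A.S = x⁻¹ := by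
  have h1 := congrArg (A.ev x) A.ST
  rw [map_mul, map_one, A.ev_T x hx] at h1
  exact eq_inv_of_mul_eq_one_left h1

lemma ev_one_add (A : WA B) (k : ℕ) (Wb : B) (W : ℂ → ℂ) {x : ℂ} (hW : W x = A.ev x Wb) :
    A.ev x (1 + xx k Wb) = HZ k W x := by
  unfold xx HZ
  rw [map_add, map_one, map_smul, smul_eq_mul, hW, div_eq_mul_inv, mul_comm]

lemma ev_th (A : WA B) (k : ℕ) (Wb : B) (W : ℂ → ℂ) {x : ℂ} (hx : ‖x‖ = 1)
    (hW : W x = A.ev x Wb) : A.ev x (th A k Wb) = TT k W x := by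
  unfold th TT
  rw [map_smul, map_mul, map_pow, ev_one_add A k Wb W hW, A.ev_T x hx, smul_eq_mul]
  ring

lemma ev_th' (A : WA B) (k : ℕ) (Wb : B) (W : ℂ → ℂ) {x : ℂ} (hx : ‖x‖ = 1)
    (hW : W x = A.ev x Wb) (hG : GG k Wb * (1 + xx k Wb) = 1) :
    A.ev x (th' A k Wb) = (TT k W x)⁻¹ := by
  have h1 := congrArg (A.ev x) hG
  rw [map_mul, map_one, ev_one_add A k Wb W hW] at h1
  have h2 : A.ev x (GG k Wb) = (HZ k W x)⁻¹ := eq_inv_of_mul_eq_one_left h1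
  unfold th' TT
  rw [map_smul, map_mul, map_pow, h2, ev_S A hx, smul_eq_mul, mul_inv, mul_inv, inv_pow]
  norm_num
  ring

lemma ev_AAB (A : WA B) (k : ℕ) (t : B) (x : ℂ) : A.ev x (AAB k t) = AA k (A.ev x t) := by
  unfold AAB AA
  simp only [map_add, map_one, map_smul, map_pow, smul_eq_mul]

lemma ev_XB (A : WA B) {k : ℕ} (hk : k ≠ 0) (Wb : B) (W : ℂ → ℂ) {x : ℂ} (hx : ‖x‖ = 1)
    (hW : W x = A.ev x Wb) (hG : GG k Wb * (1 + xx k Wb) = 1) :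
    A.ev x (XB A k Wb) = (k : ℂ) ^ 2 * PiT k (TT k W x) := by
  unfold XB PiT
  simp only [map_smul, map_add, map_sub, map_pow, smul_eq_mul, ev_th A k Wb W hx hW,
    ev_th' A k Wb W hx hW hG]
  have hk' : (k : ℂ) ≠ 0 := by exact_mod_cast hk
  field_simp

lemma ev_MB (A : WA B) (k : ℕ) (Wb : B) (W : ℂ → ℂ) {x : ℂ} (hx : ‖x‖ = 1)
    (hW : W x = A.ev x Wb) :
    A.ev x (MB A k Wb) = (((k : ℝ) ^ 2 * ‖(RR k : ℂ) * HH k W x‖ ^ 2 : ℝ) : ℂ) := by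
  unfold MB HH
  simp only [map_smul, map_mul, smul_eq_mul, A.ev_st x hx, ev_AAB, ev_th A k Wb W hx hW,
    ev_one_add A k Wb W hW]
  rw [norm_mul, norm_mul, norm_real, Complex.mul_conj, Complex.mul_conj,
    Complex.normSq_eq_norm_sq, Complex.normSq_eq_norm_sq]
  push_cast
  have h1 : ((|RR k| : ℝ) : ℂ) ^ 2 = ((RR k : ℝ) : ℂ) ^ 2 := by
    rw [← ofReal_pow, sq_abs, ofReal_pow]
  rw [Real.norm_eq_abs, mul_pow, mul_pow, h1]
  ring

lemma st_MB (A : WA B) (k : ℕ) (Wb : B) : A.st (MB A k Wb) = MB A k Wb := by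
  unfold MB
  simp only [A.st_smul, A.st_mul, A.st_st]
  have h1 : conj ((k : ℂ) ^ 2 * (RR k : ℂ) ^ 2) = (k : ℂ) ^ 2 * (RR k : ℂ) ^ 2 := by
    rw [map_mul, map_pow, map_pow, Complex.conj_natCast, Complex.conj_ofReal]
  rw [h1]
  congr 1
  ring

end

theorem main (hA : S_WA) (hP : S_POW) (h1 : S_REM1) (h2 : S_REM2) (hF : S_FIX) : S_CORE := by
  obtain ⟨B, i1, i2, i3, ⟨A⟩⟩ := hA
  obtain ⟨C, K₀, hfix⟩ := hF B A (h1 B A) (h2 B A)
  obtain ⟨-, -, hGG⟩ := hP B A.one_norm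
  refine ⟨C, max K₀ 6, fun k hk => ?_⟩
  have hk0 : K₀ ≤ k := le_trans (le_max_left _ _) hk
  have hk6 : 6 ≤ k := le_trans (le_max_right _ _) hk
  have hkne : k ≠ 0 := by omega
  have hkr : (k : ℝ) ≠ 0 := by exact_mod_cast hkne
  have hkc : (k : ℂ) ≠ 0 := by exact_mod_cast hkne
  obtain ⟨Wb, hW6, hPW, hWT, hE⟩ := hfix k hk0
  have hG := hGG k hk6 Wb hW6
  obtain ⟨X, hX⟩ : ∃ X : B, X = XB A k Wb := ⟨_, rfl⟩
  obtain ⟨M, hM⟩ : ∃ M : B, M = MB A k Wb := ⟨_, rfl⟩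
  obtain ⟨y0, hy0⟩ : ∃ y0 : ℂ, y0 = (((A.c0 X).re + (A.c0 M).re : ℝ) : ℂ) +
    ((5 * (A.c0 X).im : ℝ) : ℂ) * I := ⟨_, rfl⟩
  refine ⟨A.pf Wb, fun x => ((k : ℂ) ^ 2)⁻¹ * (A.pf ((5 / 3 : ℂ) • (X + M)) x + y0), A.pf_diff Wb,
    ((A.pf_diff _).add_const y0).const_mul _, fun x hx => ?_, fun x hx => ?_⟩
  · have h3 := A.pf_bd (Wb - (-(321 / 160) : ℂ) • A.T) x hx
    rw [A.pf_sub _ _ x hx, A.pf_smulT _ x hx] at h3
    have h4 : A.pf Wb x - -(321 / 160) * x = A.pf Wb x + (321 / 160 : ℂ) * x := by ring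
    rw [h4] at h3
    exact h3.trans hWT
  · have hWx : A.pf Wb x = A.ev x Wb := by rw [A.pf_ev Wb x hx, hPW]
    have eX := ev_XB A hkne Wb (A.pf Wb) hx hWx hG
    have eM := ev_MB A k Wb (A.pf Wb) hx hWx
    rw [← hX] at eX
    rw [← hM] at eM
    -- the decompositions
    have dX := congrArg (A.ev x) (A.dec X)
    have dM := congrArg (A.ev x) (A.dec M)
    have sM : A.st M = M := by rw [hM]; exact st_MB A k Wb
    rw [sM] at dM
    simp only [map_add, map_smul, map_one, smul_eq_mul, mul_one, A.ev_st x hx] at dX dM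
    rw [← hX, ← hM] at hE
    have eE := congrArg (A.ev x) hE
    simp only [map_sub, map_smul, smul_eq_mul] at eE
    have eY : A.pf ((5 / 3 : ℂ) • (X + M)) x = (5 / 3 : ℂ) * (A.ev x (A.P X) + A.ev x (A.P M)) := by
      rw [A.pf_ev _ x hx, map_smul, map_add, map_smul, map_add, smul_eq_mul]
    obtain ⟨p, hp⟩ : ∃ p : ℂ, p = A.ev x (A.P X) := ⟨_, rfl⟩
    obtain ⟨n, hn⟩ : ∃ n : ℂ, n = A.ev x (A.P (A.st X)) := ⟨_, rfl⟩
    obtain ⟨m, hm⟩ : ∃ m : ℂ, m = A.ev x (A.P M) := ⟨_, rfl⟩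
    rw [← hp, ← hn] at dX
    rw [← hm] at dM
    rw [← hp, ← hn, ← hm] at eE
    rw [← hp, ← hm] at eY
    rw [eX] at dX
    rw [eM] at dM
    have kk : ((k : ℂ) ^ 2)⁻¹ = (((k : ℝ) ^ 2)⁻¹ : ℝ) := by push_cast; rfl
    have kk2 : (k : ℂ) ^ 2 = (((k : ℝ) ^ 2 : ℝ) : ℂ) := by push_cast; rfl
    have dXr := congrArg Complex.re dX
    have dXi := congrArg Complex.im dX
    have dMr := congrArg Complex.re dM
    have eEr := congrArg Complex.re eE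
    have eEi := congrArg Complex.im eE
    rw [kk2, re_ofReal_mul, add_re, add_re, conj_re] at dXr
    rw [kk2, im_ofReal_mul, add_im, add_im, conj_im] at dXi
    rw [ofReal_re, add_re, add_re, conj_re] at dMr
    have c32 : (3 / 2 : ℂ) = ((3 / 2 : ℝ) : ℂ) := by push_cast; rfl
    have c12 : (1 / 2 : ℂ) = ((1 / 2 : ℝ) : ℂ) := by push_cast; rfl
    have c53 : (5 / 3 : ℂ) = ((5 / 3 : ℝ) : ℂ) := by push_cast; rfl
    rw [c32, c12, sub_re, re_ofReal_mul, re_ofReal_mul] at eEr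
    rw [c32, c12, sub_im, im_ofReal_mul, im_ofReal_mul] at eEi
    have y0r : y0.re = (A.c0 X).re + (A.c0 M).re := by
      rw [hy0]
      simp
    have y0i : y0.im = 5 * (A.c0 X).im := by
      rw [hy0]
      simp
    have hk2 : (0 : ℝ) < (k : ℝ) ^ 2 := by positivity
    constructor
    · show (((k : ℂ) ^ 2)⁻¹ * (A.pf ((5 / 3 : ℂ) • (X + M)) x + y0)).re = _
      rw [eY, kk, re_ofReal_mul, add_re, c53, re_ofReal_mul, add_re, y0r]
      rw [inv_mul_eq_iff_eq_mul₀ hk2.ne', mul_add]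
      linarith
    · show (1 / 5) * (((k : ℂ) ^ 2)⁻¹ * (A.pf ((5 / 3 : ℂ) • (X + M)) x + y0)).im = _
      rw [eY, kk, im_ofReal_mul, add_im, c53, im_ofReal_mul, add_im, y0i]
      have h5 : (1 / 5) * (((k : ℝ) ^ 2)⁻¹ * (5 / 3 * (p.im + m.im) + 5 * (A.c0 X).im)) =
          ((k : ℝ) ^ 2)⁻¹ * (1 / 3 * (p.im + m.im) + (A.c0 X).im) := by ring
      rw [h5, inv_mul_eq_iff_eq_mul₀ hk2.ne']
      linarith

end Pool.Agent.N514.TC
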